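import Pool.Agent.TH84.SF.Asm
import Pool.Agent.TH84.SF.Mix
import Pool.Agent.T9h89.SF.T1
import Pool.Agent.T9h91.SF.T2

/-!
# MP_3bdc7b_an: strongly irreducible subshifts over sofic groups

A subshift `X` is surjunctive if finite patterns can be written into its configurations by local
rules, and `X` has sofic models.  Local rules exist if `X` is strongly irreducible with a safe symbol
or with the topological Markov property, or has strong spatial mixing; sofic models exist if the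
group is sofic and `X` has a safe symbol or contains a configuration with finite orbit or a nonempty
subshift with strong spatial mixing.
-/

namespace Pool.Agent.Results.MP_3bdc7b_an.SoficGroups

/-- `X` is a subshift for the shift `(g x)(h) = x (g⁻¹ h)`. -/
def IsSubshift {G A : Type} [Group G] [TopologicalSpace A] (X : Set (G → A)) : Prop :=
  IsClosed X ∧ ∀ g : G, ∀ x ∈ X, (fun h => x (g⁻¹ * h)) ∈ X

/-- every injective cellular automaton `X → X` is surjective. -/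
def Surjunctive {G A : Type} [Group G] [TopologicalSpace A] (X : Set (G → A)) : Prop :=
  ∀ τ : X → X, Continuous τ →
    (∀ (g : G) (x y : X), (∀ h, y.1 h = x.1 (g⁻¹ * h)) → ∀ h, (τ y).1 h = (τ x).1 (g⁻¹ * h)) →
    Function.Injective τ → Function.Surjective τ

/-- `X` is strongly irreducible. -/
def StronglyIrreducible {G A : Type} [Group G] (X : Set (G → A)) : Prop :=
  ∃ Δ : Finset G, ∀ Ω₁ Ω₂ : Finset G, (∀ w ∈ Ω₁, ∀ d ∈ Δ, w * d ∉ Ω₂) →
    ∀ x₁ ∈ X, ∀ x₂ ∈ X, ∃ z ∈ X, (∀ w ∈ Ω₁, z w = x₁ w) ∧ (∀ w ∈ Ω₂, z w = x₂ w)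

/-- strong spatial mixing: strong irreducibility relative to any common finite pattern. -/
def SpatialMixing {G A : Type} [Group G] (X : Set (G → A)) : Prop :=
  ∃ Δ : Finset G, ∀ U V W : Finset G, (∀ u ∈ U, ∀ d ∈ Δ, u * d ∉ V) →
    ∀ x₁ ∈ X, ∀ x₂ ∈ X, (∀ w ∈ W, x₁ w = x₂ w) →
      ∃ z ∈ X, (∀ u ∈ U, z u = x₁ u) ∧ (∀ v ∈ V, z v = x₂ v) ∧ ∀ w ∈ W, z w = x₁ w

/-- some symbol can be written anywhere in any configuration of `X`. -/
def SafeSymbol {G A : Type} (X : Set (G → A)) : Prop :=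
  ∃ o : A, ∀ x ∈ X, ∀ z : G → A, (∀ g, z g = x g ∨ z g = o) → z ∈ X

/-- topological Markov property: each finite `E` has a finite surrounding `E'` such that if
`x, y ∈ X` agree on `E' \ E` then `x` on `E` and `y` off `E` form a configuration of `X`. -/
def MarkovProperty {G A : Type} (X : Set (G → A)) : Prop :=
  ∀ E : Finset G, ∃ E' : Finset G, ∀ x ∈ X, ∀ y ∈ X, (∀ g ∈ E', g ∉ E → x g = y g) →
    ∀ z : G → A, (∀ g ∈ E, z g = x g) → (∀ g, g ∉ E → z g = y g) → z ∈ X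

/-- `x` has a finite orbit under the shift. -/
def Periodic {G A : Type} [Group G] (x : G → A) : Prop :=
  (Set.range (fun g : G => fun h : G => x (g⁻¹ * h))).Finite

/-- the condition on `σ : G → Sym(V)` in the definition of a sofic group. -/
def IsApprox {G V : Type} [Group G] (F : Finset G) (ε : ℝ) (σ : G → Equiv.Perm V) : Prop :=
  ∀ g ∈ F, ∀ h ∈ F,
    (1 - ε) * Nat.card V ≤ Nat.card {v : V // σ (g * h) v = σ g (σ h v)} ∧
    (g ≠ 1 → (1 - ε) * Nat.card V ≤ Nat.card {v : V // σ g v ≠ v})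

/-- `G` is sofic. -/
def Sofic (G : Type) [Group G] : Prop :=
  ∀ (F : Finset G) (ε : ℝ), 0 < ε → ∃ (V : Type) (_ : Fintype V) (_ : Nonempty V)
    (σ : G → Equiv.Perm V), IsApprox F ε σ

/-- `X` has sofic models: sofic approximations `σ` of `G` with labellings `m` whose pulled back
names `g ↦ m (σ(g⁻¹) v)` agree on `W` with configurations of `X` for almost all `v`. -/
def HasModels {G A : Type} [Group G] (X : Set (G → A)) : Prop :=
  ∀ (F W : Finset G) (ε : ℝ), 0 < ε → ∃ (V : Type) (_ : Fintype V) (_ : Nonempty V)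
    (σ : G → Equiv.Perm V) (m : V → A), IsApprox F ε σ ∧
      (1 - ε) * Nat.card V ≤ Nat.card {v : V // ∃ x ∈ X, ∀ w ∈ W, m (σ w⁻¹ v) = x w}

/-- local filling: for `xs ∈ X` and finite `B` there are finite `E`, `E'` and a map `f` that writes
`xs` on `B` into each `x ∈ X`, changing `x` only on `E` and in a way that depends only on `x` on
`E'`. -/
def LocalFilling {G A : Type} (X : Set (G → A)) : Prop :=
  ∀ xs ∈ X, ∀ B : Finset G, ∃ (E E' : Finset G) (f : (G → A) → G → A), B ⊆ E ∧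
    (∀ x ∈ X, ∀ y ∈ X, (∀ g ∈ E', x g = y g) → ∀ e ∈ E, f x e = f y e) ∧
    ∀ x ∈ X, f x ∈ X ∧ (∀ b ∈ B, f x b = xs b) ∧ ∀ g, g ∉ E → f x g = x g

open Pool.Agent.TH84.SF

theorem result (G A : Type) [Group G] [Finite A] [TopologicalSpace A] [DiscreteTopology A]
    (X : Set (G → A)) (hX : IsSubshift X)
    (hfill : LocalFilling X ∨ SpatialMixing X ∨
      (StronglyIrreducible X ∧ (SafeSymbol X ∨ MarkovProperty X)))
    (hmod : HasModels X ∨
      (Sofic G ∧ (SafeSymbol X ∨ (∃ x ∈ X, Periodic x) ∨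
        ∃ Y ⊆ X, IsSubshift Y ∧ Y.Nonempty ∧ SpatialMixing Y))) :
    Surjunctive X := by
  classical
  obtain ⟨hcl, hinv⟩ := hX
  intro τ hτ he hinj y
  have hF : ∀ xs ∈ X, ∀ B : Finset G, ∃ (E E' : Finset G) (f : (G → A) → G → A),
      Fill X xs B E E' f := by
    rcases hfill with hL | hS | ⟨hSI, hsafe | hM⟩
    · intro xs hxs B
      obtain ⟨E, E', f, h1, h2, h3⟩ := hL xs hxs B
      exact fill_of_local X xs B E E' f h1 h2 h3
    · refine Pool.Agent.T9h89.SF.sF1 G A X ?_ (Pool.Agent.T9h89.SF.sT1 G A X hcl hS)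
      obtain ⟨Δ, hΔ⟩ := hS
      refine ⟨Δ, fun Ω₁ Ω₂ hΩ x₁ hx₁ x₂ hx₂ => ?_⟩
      obtain ⟨z, hz, h1, h2, _⟩ := hΔ Ω₁ Ω₂ ∅ hΩ x₁ hx₁ x₂ hx₂ (by simp)
      exact ⟨z, hz, h1, h2⟩
    · exact Pool.Agent.T9h48.SF.sF2 G A X hcl hSI hsafe
    · exact Pool.Agent.T9h89.SF.sF1 G A X hSI hM
  have hM : Modelled X := by
    rcases hmod with hH | ⟨hG, hsafe | hper | ⟨Y, hYX, hY, hne, hS⟩⟩
    · exact modelled_of X hH
    · refine Pool.Agent.T9h73.SF.sV G A X hG hinv ?_
      obtain ⟨o, ho⟩ := hsafe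
      refine ⟨fun _ => o, ho y.1 y.2 _ (fun _ => Or.inr rfl), ?_⟩
      refine (Set.finite_singleton (fun _ : G => o)).subset ?_
      rintro _ ⟨g, rfl⟩
      rfl
    · exact Pool.Agent.T9h73.SF.sV G A X hG hinv hper
    · have h1 : Modelled Y := modelled_of_mix Pool.Agent.T9h91.SF.sT2 Y hG hY.2 hS hne
      intro F W ε hε
      obtain ⟨V, hV1, hV2, s, m, U, hU, hex, hm⟩ := h1 F W ε hε
      refine ⟨V, hV1, hV2, s, m, U, hU, hex, fun v hv => ?_⟩
      obtain ⟨x, hx, hxm⟩ := hm v hv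
      exact ⟨x, hYX hx, hxm⟩
  exact surj_gen G A X hcl hinv hF hM τ hτ he hinj y

end Pool.Agent.Results.MP_3bdc7b_an.SoficGroups
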